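import Pool.Agent.Helper17.SO.Stmts

set_option autoImplicit false

open Finset

namespace Pool.Agent.Helper17.SO

lemma bti_m (u w : ℕ) (hu : 2 ≤ u) (huw : u ≤ w) :
    ∃ m : ℕ, (m : ℝ) ≤ 2 * (LL u w + 1) ∧ w ≤ u ^ (2 ^ m) := by
  have hu1 : (1 : ℝ) < u := by exact_mod_cast (by omega : 1 < u)
  have hw0 : (0 : ℝ) < w := by exact_mod_cast (by omega : 0 < w)
  have hlu : 0 < Real.log u := Real.log_pos hu1
  have hle : Real.log u ≤ Real.log w :=
    Real.log_le_log (by linarith) (by exact_mod_cast huw)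
  have hr : 1 ≤ Real.log w / Real.log u := by rwa [le_div_iff₀ hlu, one_mul]
  have hL0 : 0 ≤ LL u w := Real.log_nonneg hr
  have hexp : Real.exp (LL u w) = Real.log w / Real.log u := by
    unfold LL
    exact Real.exp_log (by linarith)
  have hl2 : 0 < Real.log 2 := Real.log_pos one_lt_two
  have hl2' : (1 : ℝ) / 2 < Real.log 2 := by
    have := Real.log_two_gt_d9
    linarith
  refine ⟨⌈LL u w / Real.log 2⌉₊, ?_, ?_⟩
  · have h1 := (Nat.ceil_lt_add_one (div_nonneg hL0 hl2.le)).le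
    have h2 : LL u w / Real.log 2 ≤ 2 * LL u w := by
      rw [div_le_iff₀ hl2]
      nlinarith
    linarith
  · obtain ⟨m, hm⟩ : ∃ m, m = ⌈LL u w / Real.log 2⌉₊ := ⟨_, rfl⟩
    rw [← hm]
    have h1 : LL u w / Real.log 2 ≤ m := by
      rw [hm]
      exact Nat.le_ceil _
    rw [div_le_iff₀ hl2] at h1
    have h2 : Real.log w / Real.log u ≤ 2 ^ m := by
      rw [← hexp]
      calc Real.exp (LL u w) ≤ Real.exp (m * Real.log 2) := Real.exp_le_exp.mpr h1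
        _ = 2 ^ m := by rw [Real.exp_nat_mul, Real.exp_log two_pos]
    rw [div_le_iff₀ hlu] at h2
    have h3 : Real.log w ≤ Real.log ((u ^ (2 ^ m) : ℕ) : ℝ) := by
      rw [Nat.cast_pow, Real.log_pow]
      push_cast
      exact h2
    have h4 : (0 : ℝ) < ((u ^ (2 ^ m) : ℕ) : ℝ) := by
      have : 0 < u ^ (2 ^ m) := pow_pos (by omega) _
      exact_mod_cast this
    have h5 := (Real.log_le_log_iff hw0 h4).mp h3
    exact_mod_cast h5

lemma bti_step (C : ℝ) (hC0 : 0 ≤ C)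
    (hC : ∀ (u Q a : ℕ), 2 ≤ u → 1 ≤ Q → Q ^ 2 ≤ u → a.Coprime Q →
      ∑ p ∈ (PP u (u ^ 2)).filter (fun p => p % Q = a % Q), 1 / (p : ℝ) ≤ C / (Q.totient : ℝ))
    (hcls : ST_CLS) (T : Finset ℕ) (hT : ∀ q ∈ T, q.Prime ∧ q ≠ 2) (u : ℕ) (hu : 2 ≤ u)
    (hQu : (∏ q ∈ T, q) ^ 2 ≤ u) :
    ∑ p ∈ (PP u (u ^ 2)).filter (fun p : ℕ => ∀ q ∈ T, jacobiSym (p : ℤ) q = 1), 1 / (p : ℝ) ≤
      C / 2 ^ T.card := by
  classical
  have hc := hcls T hT
  obtain ⟨Q, hQ⟩ : ∃ Q, Q = ∏ q ∈ T, q := ⟨_, rfl⟩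
  rw [← hQ] at hc hQu
  have hQ1 : 1 ≤ Q := by
    rw [hQ]
    exact Nat.pos_of_ne_zero (Finset.prod_ne_zero_iff.mpr fun q hq => (hT q hq).1.ne_zero)
  obtain ⟨cls, hcl⟩ : ∃ cls, cls = (range Q).filter (fun c : ℕ => ∀ q ∈ T, jacobiSym (c : ℤ) q = 1) :=
    ⟨_, rfl⟩
  rw [← hcl] at hc
  have hdvd : ∀ q ∈ T, q ∣ Q := fun q hq => by
    rw [hQ]
    exact Finset.dvd_prod_of_mem _ hq
  have hmod : ∀ p q : ℕ, q ∈ T → jacobiSym ((p % Q : ℕ) : ℤ) q = jacobiSym (p : ℤ) q := by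
    intro p q hq
    rw [jacobiSym.mod_left ((p % Q : ℕ) : ℤ) q, jacobiSym.mod_left (p : ℤ) q]
    congr 1
    have h1 := Nat.mod_mod_of_dvd p (hdvd q hq)
    exact_mod_cast h1
  have hmaps : ∀ p ∈ (PP u (u ^ 2)).filter (fun p : ℕ => ∀ q ∈ T, jacobiSym (p : ℤ) q = 1),
      p % Q ∈ cls := by
    intro p hp
    rw [hcl, Finset.mem_filter, Finset.mem_range]
    refine ⟨Nat.mod_lt _ hQ1, fun q hq => ?_⟩
    rw [hmod p q hq]
    exact (Finset.mem_filter.mp hp).2 q hq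
  rw [← Finset.sum_fiberwise_of_maps_to hmaps]
  have hco : ∀ c ∈ cls, c.Coprime Q := by
    intro c hcm
    rw [hcl, Finset.mem_filter] at hcm
    rw [hQ]
    apply Nat.Coprime.prod_right
    intro q hq
    have h1 := hcm.2 q hq
    by_contra h2
    have : NeZero q := ⟨(hT q hq).1.ne_zero⟩
    have h3 : jacobiSym (c : ℤ) q = 0 := jacobiSym.eq_zero_iff_not_coprime.mpr h2
    rw [h3] at h1
    norm_num at h1
  have hbd : ∀ c ∈ cls, ∑ p ∈ ((PP u (u ^ 2)).filter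
      (fun p : ℕ => ∀ q ∈ T, jacobiSym (p : ℤ) q = 1)).filter (fun p => p % Q = c), 1 / (p : ℝ) ≤
      C / (Q.totient : ℝ) := by
    intro c hcm
    refine le_trans (Finset.sum_le_sum_of_subset_of_nonneg ?_ fun p _ _ => by positivity)
      (hC u Q c hu hQ1 hQu (hco c hcm))
    intro p hp
    rw [Finset.mem_filter] at hp
    rw [Finset.mem_filter]
    refine ⟨(Finset.mem_filter.mp hp.1).1, ?_⟩
    rw [hcl, Finset.mem_filter, Finset.mem_range] at hcm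
    rw [hp.2, Nat.mod_eq_of_lt hcm.1]
  refine (Finset.sum_le_card_nsmul _ _ _ hbd).trans ?_
  rw [nsmul_eq_mul, ← mul_div_assoc, div_le_div_iff₀ (by
    have := Nat.totient_pos.mpr hQ1
    exact_mod_cast this) (by positivity)]
  have h1 : (2 : ℝ) ^ T.card * (cls.card : ℝ) ≤ (Q.totient : ℝ) := by exact_mod_cast hc
  nlinarith

theorem st_BTI (hB : ST_BTP) (hcls : ST_CLS) : ST_BTI := by
  classical
  obtain ⟨C, hC0, hC⟩ := hB
  refine ⟨2 * C, by positivity, ?_⟩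
  intro T u w hT hu hQu huw
  obtain ⟨m, hm, hw⟩ := bti_m u w hu huw
  have hind : ∀ m : ℕ, ∑ p ∈ (PP u (u ^ (2 ^ m))).filter
      (fun p : ℕ => ∀ q ∈ T, jacobiSym (p : ℤ) q = 1), 1 / (p : ℝ) ≤ m * (C / 2 ^ T.card) := by
    intro m
    induction m with
    | zero =>
      have : PP u (u ^ (2 ^ 0)) = ∅ := by
        unfold PP
        simp
      rw [this]
      simp
    | succ m ih =>
      have h1 : u ^ (2 ^ (m + 1)) = (u ^ (2 ^ m)) ^ 2 := by
        rw [← pow_mul, ← pow_succ]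
      have hle : u ≤ u ^ (2 ^ m) := Nat.le_self_pow (by positivity) u
      have h2 := bti_step C hC0 hC hcls T hT (u ^ (2 ^ m)) (by omega) (by omega)
      have h3 : (PP u (u ^ (2 ^ (m + 1)))).filter
          (fun p : ℕ => ∀ q ∈ T, jacobiSym (p : ℤ) q = 1) ⊆
          ((PP u (u ^ (2 ^ m))).filter (fun p : ℕ => ∀ q ∈ T, jacobiSym (p : ℤ) q = 1)) ∪
          ((PP (u ^ (2 ^ m)) ((u ^ (2 ^ m)) ^ 2)).filter
            (fun p : ℕ => ∀ q ∈ T, jacobiSym (p : ℤ) q = 1)) := by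
        intro p hp
        rw [h1] at hp
        unfold PP at hp ⊢
        simp only [Finset.mem_union, Finset.mem_filter, Finset.mem_Ioc] at hp ⊢
        by_cases h : p ≤ u ^ (2 ^ m)
        · exact Or.inl ⟨⟨⟨hp.1.1.1, h⟩, hp.1.2⟩, hp.2⟩
        · exact Or.inr ⟨⟨⟨not_le.mp h, hp.1.1.2⟩, hp.1.2⟩, hp.2⟩
      calc _ ≤ ∑ p ∈ (((PP u (u ^ (2 ^ m))).filter
            (fun p : ℕ => ∀ q ∈ T, jacobiSym (p : ℤ) q = 1)) ∪
            ((PP (u ^ (2 ^ m)) ((u ^ (2 ^ m)) ^ 2)).filter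
              (fun p : ℕ => ∀ q ∈ T, jacobiSym (p : ℤ) q = 1))), 1 / (p : ℝ) :=
            Finset.sum_le_sum_of_subset_of_nonneg h3 fun p _ _ => by positivity
        _ ≤ (∑ p ∈ (PP u (u ^ (2 ^ m))).filter
            (fun p : ℕ => ∀ q ∈ T, jacobiSym (p : ℤ) q = 1), 1 / (p : ℝ)) +
            ∑ p ∈ (PP (u ^ (2 ^ m)) ((u ^ (2 ^ m)) ^ 2)).filter
              (fun p : ℕ => ∀ q ∈ T, jacobiSym (p : ℤ) q = 1), 1 / (p : ℝ) := by
            rw [← Finset.sum_union_inter]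
            exact le_add_of_nonneg_right (Finset.sum_nonneg fun p _ => by positivity)
        _ ≤ m * (C / 2 ^ T.card) + C / 2 ^ T.card := add_le_add ih h2
        _ = ((m + 1 : ℕ) : ℝ) * (C / 2 ^ T.card) := by push_cast; ring
  have h1 : (PP u w).filter (fun p : ℕ => ∀ q ∈ T, jacobiSym (p : ℤ) q = 1) ⊆
      (PP u (u ^ (2 ^ m))).filter (fun p : ℕ => ∀ q ∈ T, jacobiSym (p : ℤ) q = 1) := by
    intro p hp
    unfold PP at hp ⊢
    simp only [Finset.mem_filter, Finset.mem_Ioc] at hp ⊢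
    exact ⟨⟨⟨hp.1.1.1, hp.1.1.2.trans hw⟩, hp.1.2⟩, hp.2⟩
  have h2 : 0 ≤ C / 2 ^ T.card := by positivity
  calc _ ≤ _ := Finset.sum_le_sum_of_subset_of_nonneg h1 fun p _ _ => by positivity
    _ ≤ m * (C / 2 ^ T.card) := hind m
    _ ≤ (2 * (LL u w + 1)) * (C / 2 ^ T.card) := mul_le_mul_of_nonneg_right hm h2
    _ = 2 * C / 2 ^ T.card * (LL u w + 1) := by ring

end Pool.Agent.Helper17.SO
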