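import Pool.Agent.Helper17.SO.Stmts

set_option autoImplicit false

open Finset

namespace Pool.Agent.Helper17.SO

/-- the symbol of the class of `x` -/
def leg_chi (a : ℤ) (N : ℕ) (x : (ZMod N)ˣ) : ℤ := jacobiSym a ((x : ZMod N).val)

lemma leg_odd (a : ℤ) (N : ℕ) (hN : N = 4 * a.natAbs) (n : ℕ) (h : n.Coprime N) : Odd n := by
  rw [← Nat.not_even_iff_odd]
  intro he
  have h1 : 2 ∣ n := he.two_dvd
  have h2 : 2 ∣ N := by
    rw [hN]
    exact ⟨2 * a.natAbs, by ring⟩
  have h3 := Nat.dvd_gcd h1 h2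
  rw [h.gcd_eq_one] at h3
  omega

lemma leg_nat (a : ℤ) (N : ℕ) (hN : N = 4 * a.natAbs) (n : ℕ) (h : n.Coprime N)
    (x : (ZMod N)ˣ) (hx : (n : ZMod N) = x) : jacobiSym a n = leg_chi a N x := by
  unfold leg_chi
  rw [← hx, ZMod.val_natCast, hN]
  exact jacobiSym.mod_right a (leg_odd a N hN n h)

lemma leg_sum (a : ℤ) (N : ℕ) [NeZero N] (hN : N = 4 * a.natAbs) (b : ℕ) (hb : Odd b)
    (hab : jacobiSym a b = -1) : ∑ x : (ZMod N)ˣ, leg_chi a N x = 0 := by
  have hg : a.gcd b = 1 := by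
    by_contra h
    have h1 : b ≠ 0 := by
      rintro rfl
      simp at hb
    have : NeZero b := ⟨h1⟩
    have h2 := jacobiSym.eq_zero_iff_not_coprime.mpr h
    rw [h2] at hab
    norm_num at hab
  have hbN : b.Coprime N := by
    rw [hN]
    apply Nat.Coprime.mul_right
    · have h1 : b.Coprime 2 := Nat.coprime_two_right.mpr hb
      have h2 : (4 : ℕ) = 2 * 2 := by norm_num
      rw [h2]
      exact Nat.Coprime.mul_right h1 h1
    · rw [Nat.coprime_comm]
      exact hg
  obtain ⟨y, hy⟩ : ∃ y : (ZMod N)ˣ, y = ZMod.unitOfCoprime b hbN := ⟨_, rfl⟩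
  have hyb : ((b : ℕ) : ZMod N) = (y : ZMod N) := by
    rw [hy, ZMod.coe_unitOfCoprime]
  have hmul : ∀ x : (ZMod N)ˣ, leg_chi a N (y * x) = - leg_chi a N x := by
    intro x
    have h1 : ((x : ZMod N).val).Coprime N := ZMod.val_coe_unit_coprime x
    have h2 : ((b * (x : ZMod N).val : ℕ) : ZMod N) = ((y * x : (ZMod N)ˣ) : ZMod N) := by
      rw [Nat.cast_mul, hyb, Units.val_mul, ZMod.natCast_zmod_val]
    have h3 : (b * (x : ZMod N).val).Coprime N := Nat.Coprime.mul_left hbN h1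
    rw [← leg_nat a N hN _ h3 _ h2, jacobiSym.mul_right', hab]
    · unfold leg_chi
      ring
    · rintro rfl
      simp at hb
    · intro h4
      have h5 := leg_odd a N hN _ h1
      rw [h4] at h5
      simp at h5
  have h1 := Equiv.sum_comp (Equiv.mulLeft y) (fun x => leg_chi a N x)
  simp only [Equiv.coe_mulLeft, hmul, Finset.sum_neg_distrib] at h1
  omega

lemma leg_abs (a : ℤ) (n : ℕ) : |(jacobiSym a n : ℝ)| ≤ 1 := by
  rcases jacobiSym.trichotomy a n with h | h | h <;> rw [h] <;> norm_num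

theorem st_LEG (hP : ST_PAP) (hS : ST_NSQ) : ST_LEG := by
  classical
  intro a ha
  have ha0 : a ≠ 0 := by
    rintro rfl
    exact ha ⟨0, by simp⟩
  obtain ⟨b, hb, hab⟩ := hS a ha
  obtain ⟨N, hN⟩ : ∃ N, N = 4 * a.natAbs := ⟨_, rfl⟩
  have hN0 : N ≠ 0 := by
    have := Int.natAbs_ne_zero.mpr ha0
    omega
  have : NeZero N := ⟨hN0⟩
  have hsum := leg_sum a N hN b hb hab
  choose C hC0 hC using fun x : (ZMod N)ˣ => hP N (x : ZMod N) (Nat.pos_of_ne_zero hN0) x.isUnit
  refine ⟨N + ∑ x : (ZMod N)ˣ, C x, add_nonneg (Nat.cast_nonneg _)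
    (Finset.sum_nonneg fun x _ => hC0 x), ?_⟩
  intro u w hu huw
  rw [← Finset.sum_filter_add_sum_filter_not (PP u w) (fun p => ¬ p.Coprime N)]
  refine (abs_add_le _ _).trans (add_le_add ?_ ?_)
  · refine (Finset.abs_sum_le_sum_abs _ _).trans ?_
    have h1 : ∀ p ∈ (PP u w).filter (fun p => ¬ p.Coprime N), |(jacobiSym a p : ℝ) / p| ≤ 1 := by
      intro p hp
      have h2 : p.Prime := (Finset.mem_filter.mp (Finset.mem_filter.mp hp).1).2
      have h3 : (1 : ℝ) ≤ p := by exact_mod_cast h2.one_lt.le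
      rw [abs_div, Nat.abs_cast, div_le_one (by linarith)]
      exact (leg_abs a p).trans h3
    refine (Finset.sum_le_card_nsmul _ _ _ h1).trans ?_
    rw [nsmul_eq_mul, mul_one]
    have h4 : (PP u w).filter (fun p => ¬ p.Coprime N) ⊆ Finset.Icc 1 N := by
      intro p hp
      have h2 : p.Prime := (Finset.mem_filter.mp (Finset.mem_filter.mp hp).1).2
      have h3 := (Finset.mem_filter.mp hp).2
      rw [h2.coprime_iff_not_dvd, not_not] at h3
      rw [Finset.mem_Icc]
      exact ⟨h2.one_lt.le, Nat.le_of_dvd (Nat.pos_of_ne_zero hN0) h3⟩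
    have h5 := Finset.card_le_card h4
    rw [Nat.card_Icc, Nat.add_sub_cancel] at h5
    exact_mod_cast h5
  · simp only [not_not]
    obtain ⟨g, hg⟩ : ∃ g : ℕ → (ZMod N)ˣ, ∀ p, p.Coprime N → ((g p : (ZMod N)ˣ) : ZMod N) = p :=
      ⟨fun p => if h : p.Coprime N then ZMod.unitOfCoprime p h else 1, fun p hp => by
        beta_reduce
        rw [dif_pos hp, ZMod.coe_unitOfCoprime]⟩
    rw [← Finset.sum_fiberwise ((PP u w).filter (fun p => p.Coprime N)) g
      (fun p => (jacobiSym a p : ℝ) / p)]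
    have hfib : ∀ x : (ZMod N)ˣ, ∑ p ∈ ((PP u w).filter (fun p => p.Coprime N)).filter
        (fun p => g p = x), (jacobiSym a p : ℝ) / p =
        (leg_chi a N x : ℝ) * ∑ p ∈ (PP u w).filter (fun p : ℕ => (p : ZMod N) = x), 1 / (p : ℝ) := by
      intro x
      have h1 : ((PP u w).filter (fun p => p.Coprime N)).filter (fun p => g p = x) =
          (PP u w).filter (fun p : ℕ => (p : ZMod N) = x) := by
        ext p
        rw [Finset.mem_filter, Finset.mem_filter, Finset.mem_filter]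
        constructor
        · rintro ⟨⟨h2, h3⟩, h4⟩
          exact ⟨h2, by rw [← hg p h3, h4]⟩
        · rintro ⟨h2, h3⟩
          have h4 : p.Coprime N := by
            rw [← ZMod.isUnit_iff_coprime, h3]
            exact x.isUnit
          exact ⟨⟨h2, h4⟩, Units.ext (by rw [hg p h4, h3])⟩
      rw [h1, Finset.mul_sum]
      refine Finset.sum_congr rfl fun p hp => ?_
      have h3 := (Finset.mem_filter.mp hp).2
      have h4 : p.Coprime N := by
        rw [← ZMod.isUnit_iff_coprime, h3]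
        exact x.isUnit
      rw [leg_nat a N hN p h4 x h3]
      ring
    rw [Finset.sum_congr rfl fun x _ => hfib x]
    have hkey : ∑ x : (ZMod N)ˣ, (leg_chi a N x : ℝ) *
        ∑ p ∈ (PP u w).filter (fun p : ℕ => (p : ZMod N) = x), 1 / (p : ℝ) =
        ∑ x : (ZMod N)ˣ, (leg_chi a N x : ℝ) *
          (∑ p ∈ (PP u w).filter (fun p : ℕ => (p : ZMod N) = x), 1 / (p : ℝ) -
            LL u w / (N.totient : ℝ)) := by
      simp only [mul_sub, Finset.sum_sub_distrib]
      rw [← Finset.sum_mul]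
      have h1 : ∑ x : (ZMod N)ˣ, (leg_chi a N x : ℝ) = 0 := by exact_mod_cast hsum
      rw [h1, zero_mul, sub_zero]
    rw [hkey]
    refine (Finset.abs_sum_le_sum_abs _ _).trans (Finset.sum_le_sum fun x _ => ?_)
    rw [abs_mul]
    have h1 := hC x u w hu huw
    have h2 : |(leg_chi a N x : ℝ)| ≤ 1 := leg_abs a _
    calc |(leg_chi a N x : ℝ)| * _ ≤ 1 * C x :=
          mul_le_mul h2 h1 (abs_nonneg _) zero_le_one
      _ = C x := one_mul _

end Pool.Agent.Helper17.SO
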